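import Mathlib

set_option autoImplicit false

/-!
# Codes closed under majority or minimum
-/

open Finset

namespace Pool.Agent.R604.PC

/-- closed under the coordinatewise application of `f` -/
def Closed {n k : ℕ} (f : (Fin k → Bool) → Bool) (C : Finset (Fin n → Bool)) : Prop :=
  ∀ x : Fin k → Fin n → Bool, (∀ i, x i ∈ C) → (fun j => f (fun i => x i j)) ∈ C

/-- minimum distance at least `d` -/
def Dist {n : ℕ} (d : ℕ) (C : Finset (Fin n → Bool)) : Prop :=
  ∀ x ∈ C, ∀ y ∈ C, x ≠ y → d ≤ hammingDist x y

/-- majority -/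
def maj (a b c : Bool) : Bool := (a && b) || (b && c) || (a && c)

/-- closed under majority -/
def MajC {n : ℕ} (C : Finset (Fin n → Bool)) : Prop :=
  ∀ x ∈ C, ∀ y ∈ C, ∀ z ∈ C, (fun j => maj (x j) (y j) (z j)) ∈ C

/-- closed under the minimum -/
def AndC {n : ℕ} (C : Finset (Fin n → Bool)) : Prop :=
  ∀ x ∈ C, ∀ y ∈ C, (fun j => x j && y j) ∈ C

/-- closed under the maximum -/
def OrC {n : ℕ} (C : Finset (Fin n → Bool)) : Prop :=
  ∀ x ∈ C, ∀ y ∈ C, (fun j => x j || y j) ∈ C

/-- all words agree outside `J` -/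
def Agree {n : ℕ} (J : Finset (Fin n)) (C : Finset (Fin n → Bool)) : Prop :=
  ∀ x ∈ C, ∀ y ∈ C, ∀ j, j ∉ J → x j = y j

lemma maj_bound {n d : ℕ} (hd : 0 < d) : ∀ (m : ℕ) (J : Finset (Fin n)) (C : Finset (Fin n → Bool)),
    J.card ≤ m → Agree J C → MajC C → Dist d C → C.card ≤ 2 ^ (m / d) := by
  intro m
  induction m using Nat.strong_induction_on with
  | _ m ih =>
    intro J C hJ hag hmaj hdist
    by_cases h1 : C.card ≤ 1
    · exact h1.trans Nat.one_le_two_pow
    push Not at h1
    -- a pair at minimal distance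
    obtain ⟨a, ha, b, hb, hab⟩ := Finset.one_lt_card.mp h1
    obtain ⟨p, hp, hmin⟩ := Finset.exists_min_image (C.offDiag) (fun p => hammingDist p.1 p.2)
      ⟨(a, b), Finset.mem_offDiag.mpr ⟨ha, hb, hab⟩⟩
    obtain ⟨hx, hy, hxy⟩ := Finset.mem_offDiag.mp hp
    set x := p.1 with hxdef
    set y := p.2 with hydef
    set D : Finset (Fin n) := univ.filter (fun j => x j ≠ y j) with hD
    have hDd : d ≤ D.card := hdist x hx y hy hxy
    have hDJ : D ⊆ J := by
      intro j hj
      by_contra hjJ
      exact (Finset.mem_filter.mp hj).2 (hag x hx y hy j hjJ)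
    have hmd : d ≤ m := hDd.trans ((Finset.card_le_card hDJ).trans hJ)
    have hcls : ∀ z ∈ C, (∀ j ∈ D, z j = x j) ∨ (∀ j ∈ D, z j = y j) := by
      intro z hz
      set w : Fin n → Bool := fun j => maj (x j) (y j) (z j) with hw
      have hwC : w ∈ C := hmaj x hx y hy z hz
      have hwz : ∀ j ∈ D, w j = z j := by
        intro j hj
        have h3 := (Finset.mem_filter.mp hj).2
        simp only [hw, maj]
        revert h3
        cases x j <;> cases y j <;> cases z j <;> simp
      have hwx : ∀ j, j ∉ D → w j = x j := by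
        intro j hj
        have h3 : x j = y j := by
          by_contra hc
          exact hj (Finset.mem_filter.mpr ⟨Finset.mem_univ _, hc⟩)
        simp only [hw, maj, ← h3]
        cases x j <;> cases z j <;> simp
      by_cases hwx' : x = w
      · left
        intro j hj
        rw [← hwz j hj, ← hwx']
      · right
        have h4 := hmin (x, w) (Finset.mem_offDiag.mpr ⟨hx, hwC, hwx'⟩)
        simp only at h4
        have h5 : (univ.filter (fun j => x j ≠ w j)) ⊆ D := by
          intro j hj
          by_contra hjD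
          exact (Finset.mem_filter.mp hj).2 (hwx j hjD).symm
        have h6 : (univ.filter (fun j => x j ≠ w j)) = D :=
          Finset.eq_of_subset_of_card_le h5 h4
        intro j hj
        have h7 : x j ≠ w j := by
          have : j ∈ univ.filter (fun j => x j ≠ w j) := h6 ▸ hj
          exact (Finset.mem_filter.mp this).2
        have h8 := (Finset.mem_filter.mp hj).2
        rw [hwz j hj] at h7
        revert h7 h8
        cases x j <;> cases y j <;> cases z j <;> simp
    have hsub : ∀ u : Fin n → Bool, (C.filter (fun z => ∀ j ∈ D, z j = u j)).card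
        ≤ 2 ^ ((m - d) / d) := by
      intro u
      apply ih (m - d) (by omega) (J \ D)
      · rw [Finset.card_sdiff_of_subset hDJ]
        omega
      · intro s hs t ht j hj
        obtain ⟨hs1, hs2⟩ := Finset.mem_filter.mp hs
        obtain ⟨ht1, ht2⟩ := Finset.mem_filter.mp ht
        by_cases hjD : j ∈ D
        · rw [hs2 j hjD, ht2 j hjD]
        · exact hag s hs1 t ht1 j (fun hjJ => hj (Finset.mem_sdiff.mpr ⟨hjJ, hjD⟩))
      · intro s hs t ht r hr
        obtain ⟨hs1, hs2⟩ := Finset.mem_filter.mp hs
        obtain ⟨ht1, ht2⟩ := Finset.mem_filter.mp ht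
        obtain ⟨hr1, hr2⟩ := Finset.mem_filter.mp hr
        refine Finset.mem_filter.mpr ⟨hmaj s hs1 t ht1 r hr1, fun j hj => ?_⟩
        show maj (s j) (t j) (r j) = u j
        rw [hs2 j hj, ht2 j hj, hr2 j hj]
        cases u j <;> rfl
      · intro s hs t ht hst
        exact hdist s (Finset.mem_filter.mp hs).1 t (Finset.mem_filter.mp ht).1 hst
    have hcover : C ⊆ (C.filter (fun z => ∀ j ∈ D, z j = x j)) ∪
        (C.filter (fun z => ∀ j ∈ D, z j = y j)) := by
      intro z hz
      rcases hcls z hz with h | h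
      · exact Finset.mem_union_left _ (Finset.mem_filter.mpr ⟨hz, h⟩)
      · exact Finset.mem_union_right _ (Finset.mem_filter.mpr ⟨hz, h⟩)
    have hq : m / d = (m - d) / d + 1 := by
      conv_lhs => rw [← Nat.sub_add_cancel hmd]
      rw [Nat.add_div_right _ hd]
    calc C.card ≤ _ := Finset.card_le_card hcover
      _ ≤ _ := Finset.card_union_le _ _
      _ ≤ 2 ^ ((m - d) / d) + 2 ^ ((m - d) / d) := Nat.add_le_add (hsub x) (hsub y)
      _ = 2 ^ (m / d) := by rw [hq, pow_succ]; ring

open Classical in
lemma and_bound {n d : ℕ} (hd : 0 < d) : ∀ (m : ℕ) (J : Finset (Fin n)) (C : Finset (Fin n → Bool)),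
    J.card ≤ m → Agree J C → AndC C → Dist d C → C.card ≤ (m / d + 1).factorial := by
  intro m
  induction m using Nat.strong_induction_on with
  | _ m ih =>
    intro J C hJ hag hand hdist
    by_cases h1 : C.card ≤ 1
    · exact h1.trans (Nat.factorial_pos _)
    push Not at h1
    have hne : C.Nonempty := Finset.card_pos.mp (by omega)
    obtain ⟨b, hbC, hbmin⟩ : ∃ b ∈ C, ∀ z ∈ C, b ≤ z := by
      obtain ⟨c0, hc0⟩ := hne
      obtain ⟨b, -, hb⟩ := Finset.exists_le_minimal C hc0
      refine ⟨b, hb.1, fun z hz => ?_⟩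
      have h2 : (fun j => b j && z j) ∈ C := hand b hb.1 z hz
      have h3 : (fun j => b j && z j) ≤ b := by
        intro j
        show (b j && z j) ≤ b j
        cases b j <;> cases z j <;> simp
      have h4 := hb.2 h2 h3
      intro j
      have h5 : b j ≤ (b j && z j) := h4 j
      revert h5
      cases b j <;> cases z j <;> simp
    set K : Finset (Fin n → Bool) := (C.erase b).filter (fun c => Minimal (· ∈ C.erase b) c) with hK
    have hKC : ∀ c ∈ K, c ∈ C ∧ c ≠ b ∧ Minimal (· ∈ C.erase b) c := by
      intro c hc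
      obtain ⟨h2, h3⟩ := Finset.mem_filter.mp hc
      exact ⟨Finset.mem_of_mem_erase h2, Finset.ne_of_mem_erase h2, h3⟩
    let E : (Fin n → Bool) → Finset (Fin n) := fun c => univ.filter (fun j => b j ≠ c j)
    have hEd : ∀ c ∈ K, d ≤ (E c).card := by
      intro c hc
      obtain ⟨h2, h3, -⟩ := hKC c hc
      exact hdist b hbC c h2 (Ne.symm h3)
    have hEJ : ∀ c ∈ K, E c ⊆ J := by
      intro c hc j hj
      by_contra hjJ
      exact (Finset.mem_filter.mp hj).2 (hag b hbC c (hKC c hc).1 j hjJ)
    have hEtrue : ∀ c ∈ K, ∀ j ∈ E c, c j = true ∧ b j = false := by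
      intro c hc j hj
      have h2 := (Finset.mem_filter.mp hj).2
      have h3 : b j ≤ c j := hbmin c (hKC c hc).1 j
      revert h2 h3
      cases b j <;> cases c j <;> simp
    have hdisj : ∀ c ∈ K, ∀ c' ∈ K, c ≠ c' → Disjoint (E c) (E c') := by
      intro c hc c' hc' hne
      rw [Finset.disjoint_left]
      intro j hj hj'
      obtain ⟨h2, h3, h4⟩ := hKC c hc
      obtain ⟨h2', h3', h4'⟩ := hKC c' hc'
      have h5 : (fun j => c j && c' j) ∈ C := hand c h2 c' h2'
      have h6 : (fun j => c j && c' j) ≠ b := by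
        intro he
        have := congrFun he j
        simp only [(hEtrue c hc j hj).1, (hEtrue c' hc' j hj').1, (hEtrue c hc j hj).2] at this
        simp at this
      have h7 : (fun j => c j && c' j) ≤ c := by
        intro i
        show (c i && c' i) ≤ c i
        cases c i <;> cases c' i <;> simp
      have h8 : (fun j => c j && c' j) ≤ c' := by
        intro i
        show (c i && c' i) ≤ c' i
        cases c i <;> cases c' i <;> simp
      have h9 := h4.2 (Finset.mem_erase.mpr ⟨h6, h5⟩) h7
      have h10 := h4'.2 (Finset.mem_erase.mpr ⟨h6, h5⟩) h8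
      exact hne (le_antisymm (h9.trans h8) (h10.trans h7))
    have hKcard : K.card * d ≤ m := by
      have h2 : (K.biUnion E).card = ∑ c ∈ K, (E c).card := Finset.card_biUnion hdisj
      have h3 : (K.biUnion E).card ≤ J.card :=
        Finset.card_le_card (Finset.biUnion_subset.mpr hEJ)
      have h4 : K.card * d ≤ ∑ c ∈ K, (E c).card := by
        rw [← smul_eq_mul]
        exact Finset.card_nsmul_le_sum K _ d hEd
      omega
    have hKdiv : K.card ≤ m / d := (Nat.le_div_iff_mul_le hd).mpr hKcard
    have hsub : ∀ c ∈ K, (C.filter (fun z => c ≤ z)).card ≤ (m / d).factorial := by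
      intro c hc
      have hmd : d ≤ m := (hEd c hc).trans ((Finset.card_le_card (hEJ c hc)).trans hJ)
      have hq : m / d = (m - d) / d + 1 := by
        conv_lhs => rw [← Nat.sub_add_cancel hmd]
        rw [Nat.add_div_right _ hd]
      rw [hq]
      apply ih (m - d) (by omega) (J \ E c)
      · rw [Finset.card_sdiff_of_subset (hEJ c hc)]
        have := hEd c hc
        omega
      · intro s hs t ht j hj
        obtain ⟨hs1, hs2⟩ := Finset.mem_filter.mp hs
        obtain ⟨ht1, ht2⟩ := Finset.mem_filter.mp ht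
        by_cases hjE : j ∈ E c
        · have h2 := (hEtrue c hc j hjE).1
          have h3 : c j ≤ s j := hs2 j
          have h4 : c j ≤ t j := ht2 j
          rw [h2] at h3 h4
          rw [top_le_iff.mp h3, top_le_iff.mp h4]
        · exact hag s hs1 t ht1 j (fun hjJ => hj (Finset.mem_sdiff.mpr ⟨hjJ, hjE⟩))
      · intro s hs t ht
        obtain ⟨hs1, hs2⟩ := Finset.mem_filter.mp hs
        obtain ⟨ht1, ht2⟩ := Finset.mem_filter.mp ht
        refine Finset.mem_filter.mpr ⟨hand s hs1 t ht1, fun j => ?_⟩
        have h3 : c j ≤ s j := hs2 j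
        have h4 : c j ≤ t j := ht2 j
        show c j ≤ (s j && t j)
        revert h3 h4
        cases c j <;> cases s j <;> cases t j <;> simp
      · intro s hs t ht hst
        exact hdist s (Finset.mem_filter.mp hs).1 t (Finset.mem_filter.mp ht).1 hst
    have hcover : C ⊆ insert b (K.biUnion (fun c => C.filter (fun z => c ≤ z))) := by
      intro z hz
      by_cases hzb : z = b
      · exact hzb ▸ Finset.mem_insert_self _ _
      · obtain ⟨c, hcz, hc⟩ := Finset.exists_le_minimal (C.erase b) (Finset.mem_erase.mpr ⟨hzb, hz⟩)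
        refine Finset.mem_insert_of_mem (Finset.mem_biUnion.mpr ⟨c, ?_, ?_⟩)
        · exact Finset.mem_filter.mpr ⟨hc.1, hc⟩
        · exact Finset.mem_filter.mpr ⟨hz, hcz⟩
    calc C.card ≤ _ := Finset.card_le_card hcover
      _ ≤ (K.biUnion (fun c => C.filter (fun z => c ≤ z))).card + 1 := Finset.card_insert_le _ _
      _ ≤ (∑ c ∈ K, (C.filter (fun z => c ≤ z)).card) + 1 :=
          Nat.add_le_add_right Finset.card_biUnion_le _
      _ ≤ K.card * (m / d).factorial + 1 := by
          apply Nat.add_le_add_right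
          rw [← smul_eq_mul]
          exact Finset.sum_le_card_nsmul K _ _ hsub
      _ ≤ (m / d) * (m / d).factorial + (m / d).factorial := by
          apply Nat.add_le_add (Nat.mul_le_mul_right _ hKdiv) (Nat.factorial_pos _)
      _ = (m / d + 1).factorial := by rw [Nat.factorial_succ]; ring

lemma or_bound {n d : ℕ} (hd : 0 < d) (m : ℕ) (J : Finset (Fin n)) (C : Finset (Fin n → Bool))
    (hJ : J.card ≤ m) (hag : Agree J C) (hor : OrC C) (hdist : Dist d C) :
    C.card ≤ (m / d + 1).factorial := by
  have hinj : Function.Injective (fun (x : Fin n → Bool) (j : Fin n) => !(x j)) := by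
    intro x y hxy
    funext j
    have := congrFun hxy j
    simpa using this
  rw [← Finset.card_image_of_injective C hinj]
  apply and_bound hd m J _ hJ
  · intro x hx y hy j hj
    obtain ⟨x', hx', rfl⟩ := Finset.mem_image.mp hx
    obtain ⟨y', hy', rfl⟩ := Finset.mem_image.mp hy
    simp only [hag x' hx' y' hy' j hj]
  · intro x hx y hy
    obtain ⟨x', hx', rfl⟩ := Finset.mem_image.mp hx
    obtain ⟨y', hy', rfl⟩ := Finset.mem_image.mp hy
    refine Finset.mem_image.mpr ⟨fun j => x' j || y' j, hor x' hx' y' hy', ?_⟩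
    funext j
    simp
  · intro x hx y hy hxy
    obtain ⟨x', hx', rfl⟩ := Finset.mem_image.mp hx
    obtain ⟨y', hy', rfl⟩ := Finset.mem_image.mp hy
    have h1 : x' ≠ y' := fun h => hxy (by rw [h])
    have h2 := hdist x' hx' y' hy' h1
    have h3 : hammingDist (fun j => !(x' j)) (fun j => !(y' j)) = hammingDist x' y' := by
      unfold hammingDist
      congr 1
      ext j
      simp
    rw [h3]
    exact h2

end Pool.Agent.R604.PC
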