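import Pool.Agent.R604.PC.Post

set_option autoImplicit false

/-!
# MP_0430e4_lc: binary codes closed under a Boolean operation

Let `f` be an idempotent Boolean operation of any arity `k` which is not a projection. A code
`C ⊆ {0,1}^n` is closed under `f` if the coordinatewise application of `f` to any `k` words of `C`
gives a word of `C`. Then there are only two possibilities:

* `f` is the sum modulo two of an odd number, at least three, of its variables, and the codes closed
  under `f` are exactly the cosets of linear codes (and the empty code); the largest size of a code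
  of length `n` and minimum distance `d` closed under `f` is that of a linear code;
* every code of length `n` and minimum distance at least `d ≥ 1` which is closed under `f` has at
  most `(⌊n / d⌋ + 1)!` words; so for minimum distance `≥ δ n` the size is bounded by a constant
  depending on `δ` only, and the rate function of these codes is `0`.

So for codes with an algebraic closure property the function `R(δ)` of the problem is either `0` or
the one of linear codes.
-/

open Finset

namespace Pool.Agent.R604.PC.PolymorphismsVariant

/-- `Closed f C`: the code `C` is closed under the coordinatewise application of `f`. -/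
def Closed {n k : ℕ} (f : (Fin k → Bool) → Bool) (C : Finset (Fin n → Bool)) : Prop :=
  ∀ x : Fin k → Fin n → Bool, (∀ i, x i ∈ C) → (fun j => f (fun i => x i j)) ∈ C

/-- `MinDist d C`: any two different words of `C` differ in at least `d` coordinates. -/
def MinDist {n : ℕ} (d : ℕ) (C : Finset (Fin n → Bool)) : Prop :=
  ∀ x ∈ C, ∀ y ∈ C, x ≠ y → d ≤ hammingDist x y

/-- `Linear L`: the code `L` contains the zero word and is closed under sums modulo two. -/
def Linear {n : ℕ} (L : Finset (Fin n → Bool)) : Prop :=
  (fun _ => false) ∈ L ∧ ∀ x ∈ L, ∀ y ∈ L, (fun j => xor (x j) (y j)) ∈ L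

/-- `parity T x`: the sum modulo two of the bits `x i`, `i ∈ T`. -/
def parity {k : ℕ} (T : Finset (Fin k)) (x : Fin k → Bool) : Bool :=
  decide (Odd (T.filter (fun i => x i = true)).card)

/-- `best P n d`: the largest size of a code of length `n` and minimum distance at least `d` with
the property `P`. -/
noncomputable def best (P : ∀ {n : ℕ}, Finset (Fin n → Bool) → Prop) (n d : ℕ) : ℕ :=
  sSup {m | ∃ C : Finset (Fin n → Bool), P C ∧ MinDist d C ∧ C.card = m}

lemma best_le {P : ∀ {n : ℕ}, Finset (Fin n → Bool) → Prop} {n d B : ℕ}
    (h : ∀ C : Finset (Fin n → Bool), P C → MinDist d C → C.card ≤ B) : best P n d ≤ B := by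
  unfold best
  rcases Set.eq_empty_or_nonempty
    {m | ∃ C : Finset (Fin n → Bool), P C ∧ MinDist d C ∧ C.card = m} with h0 | h0
  · rw [h0]; simp
  · apply csSup_le h0
    rintro m ⟨C, hP, hd, rfl⟩
    exact h C hP hd

lemma le_best {P : ∀ {n : ℕ}, Finset (Fin n → Bool) → Prop} {n d : ℕ}
    (C : Finset (Fin n → Bool)) (hP : P C) (hd : MinDist d C) : C.card ≤ best P n d := by
  unfold best
  refine le_csSup ⟨2 ^ n, ?_⟩ ⟨C, hP, hd, rfl⟩
  rintro m ⟨C', -, -, rfl⟩
  refine (Finset.card_le_univ _).trans ?_
  simp

theorem result (k : ℕ) (f : (Fin k → Bool) → Bool) (hid : ∀ b : Bool, f (fun _ => b) = b)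
    (hproj : ∀ i : Fin k, f ≠ fun x => x i) :
    -- either `f` is a parity, and the closed codes are the cosets of linear codes
    ((∃ T : Finset (Fin k), Odd T.card ∧ 3 ≤ T.card ∧ f = parity T) ∧
      (∀ (n : ℕ) (C : Finset (Fin n → Bool)), Closed f C ↔
        ∀ v ∈ C, ∃ L : Finset (Fin n → Bool), Linear L ∧
          C = L.image (fun x j => xor (v j) (x j))) ∧
      (∀ n d : ℕ, best (Closed f) n d = best Linear n d)) ∨
    -- or closed codes with large distance have bounded size
    ((∀ (n d : ℕ) (C : Finset (Fin n → Bool)), 0 < d → Closed f C → MinDist d C →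
        C.card ≤ (n / d + 1).factorial) ∧
      (∀ δ : ℝ, 0 < δ → ∀ n : ℕ, 0 < n →
        best (Closed f) n ⌈δ * n⌉₊ ≤ (⌊1 / δ⌋₊ + 1).factorial)) := by
  rcases R604.PC.post hid with ⟨T, hodd, hT⟩ | hcase
  · -- parity
    left
    have hfT : f = R604.PC.par T := funext hT
    have h3 : 3 ≤ T.card := by
      by_contra hlt
      have h1 : T.card = 1 := by
        obtain ⟨r, hr⟩ := hodd; omega
      obtain ⟨a, rfl⟩ := Finset.card_eq_one.mp h1
      apply hproj a
      funext x
      rw [hT]
      have := R604.PC.par_insert (Finset.notMem_empty a) x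
      rw [R604.PC.par_empty] at this
      simpa using this
    have hiff : ∀ (n : ℕ) (C : Finset (Fin n → Bool)), Closed f C ↔
        ∀ v ∈ C, ∃ L : Finset (Fin n → Bool), Linear L ∧
          C = L.image (fun x j => xor (v j) (x j)) := by
      intro n C
      have h1 : Closed f C ↔ R604.PC.XorC C := by
        rw [hfT]
        exact R604.PC.closed_par_iff hodd h3 C
      rw [h1, R604.PC.xorC_iff]
      constructor
      · intro h v hv
        obtain ⟨L, h2, h4, h5⟩ := h v hv
        exact ⟨L, ⟨h2, h4⟩, h5⟩
      · intro h v hv
        obtain ⟨L, ⟨h2, h4⟩, h5⟩ := h v hv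
        exact ⟨L, h2, h4, h5⟩
    refine ⟨⟨T, hodd, h3, hfT⟩, hiff, fun n d => le_antisymm ?_ ?_⟩
    · apply best_le
      intro C hC hd
      rcases C.eq_empty_or_nonempty with h0 | ⟨v, hv⟩
      · rw [h0]; simp
      · obtain ⟨L, hL, hCL⟩ := (hiff n C).mp hC v hv
        have hinj : Function.Injective (fun (x : Fin n → Bool) (j : Fin n) => xor (v j) (x j)) := by
          intro x y hxy
          funext j
          have h6 := congrFun hxy j
          revert h6
          simp only
          cases v j <;> cases x j <;> cases y j <;> simp
        have h7 : C.card = L.card := by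
          rw [hCL, Finset.card_image_of_injective L hinj]
        rw [h7]
        apply le_best L hL
        intro x hx y hy hxy
        have h8 := hd _ (by rw [hCL]; exact Finset.mem_image_of_mem _ hx) _
          (by rw [hCL]; exact Finset.mem_image_of_mem _ hy) (fun h => hxy (hinj h))
        refine h8.trans (le_of_eq ?_)
        unfold hammingDist
        congr 1
        ext j
        simp only [Finset.mem_filter, Finset.mem_univ, true_and]
        cases v j <;> cases x j <;> cases y j <;> simp
    · apply best_le
      intro L hL hd
      refine le_best (P := Closed f) L ?_ hd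
      rw [hiff]
      intro v hv
      refine ⟨L, hL, ?_⟩
      ext x
      constructor
      · intro hx
        refine Finset.mem_image.mpr ⟨_, hL.2 v hv x hx, ?_⟩
        funext j
        show xor (v j) (xor (v j) (x j)) = x j
        cases v j <;> cases x j <;> rfl
      · intro hx
        obtain ⟨y, hy, rfl⟩ := Finset.mem_image.mp hx
        exact hL.2 v hv y hy
  · right
    have hmain : ∀ (n d : ℕ) (C : Finset (Fin n → Bool)), 0 < d → Closed f C → MinDist d C →
        C.card ≤ (n / d + 1).factorial := by
      intro n d C hd hC hdist
      have hJ : (univ : Finset (Fin n)).card ≤ n := by simp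
      have hag : R604.PC.Agree (univ : Finset (Fin n)) C :=
        fun x _ y _ j hj => absurd (Finset.mem_univ j) hj
      rcases hcase with h | h | h
      · exact R604.PC.and_bound hd n univ C hJ hag (h n C hC) hdist
      · exact R604.PC.or_bound hd n univ C hJ hag (h n C hC) hdist
      · refine (R604.PC.maj_bound hd n univ C hJ hag (h n C hC) hdist).trans ?_
        have : ∀ m : ℕ, 2 ^ m ≤ (m + 1).factorial := by
          intro m
          induction m with
          | zero => simp
          | succ m ih =>
            rw [pow_succ, Nat.factorial_succ, mul_comm]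
            exact Nat.mul_le_mul (by omega) ih
        exact this _
    refine ⟨hmain, fun δ hδ n hn => ?_⟩
    apply best_le
    intro C hC hdist
    have hnR : (0 : ℝ) < n := by exact_mod_cast hn
    have hd : 0 < ⌈δ * n⌉₊ := Nat.ceil_pos.mpr (by positivity)
    refine (hmain n _ C hd hC hdist).trans (Nat.factorial_le ?_)
    apply Nat.add_le_add_right
    apply Nat.le_floor
    have h1 : ((n / ⌈δ * n⌉₊ : ℕ) : ℝ) ≤ (n : ℝ) / (⌈δ * n⌉₊ : ℝ) := Nat.cast_div_le
    have hdR : (0 : ℝ) < (⌈δ * n⌉₊ : ℝ) := by exact_mod_cast hd
    refine h1.trans ?_
    rw [div_le_div_iff₀ hdR hδ]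
    have := Nat.le_ceil (δ * n)
    linarith

end Pool.Agent.R604.PC.PolymorphismsVariant
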