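import Pool.Agent.R604.PC.Bound

set_option autoImplicit false

/-!
# Idempotent Boolean operations
-/

open Finset

namespace Pool.Agent.R604.PC

variable {k : ℕ}

/-- the value of `f` on the indicator function of `S` -/
def u (f : (Fin k → Bool) → Bool) (S : Finset (Fin k)) : Bool := f (fun i => decide (i ∈ S))

/-- the parity of the number of true variables in `T` -/
def par (T : Finset (Fin k)) (x : Fin k → Bool) : Bool :=
  decide (Odd (T.filter (fun i => x i = true)).card)

/-- closed under the sum of three words -/
def XorC {n : ℕ} (C : Finset (Fin n → Bool)) : Prop :=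
  ∀ x ∈ C, ∀ y ∈ C, ∀ z ∈ C, (fun j => xor (x j) (xor (y j) (z j))) ∈ C

lemma eval_u (f : (Fin k → Bool) → Bool) (x : Fin k → Bool) :
    f x = u f (univ.filter (fun i => x i = true)) := by
  unfold u
  congr 1
  funext i
  simp

lemma u_empty {f : (Fin k → Bool) → Bool} (hid : ∀ b, f (fun _ => b) = b) : u f ∅ = false := by
  unfold u
  simpa using hid false

lemma u_univ {f : (Fin k → Bool) → Bool} (hid : ∀ b, f (fun _ => b) = b) : u f univ = true := by
  unfold u
  simpa using hid true

/-- the binary minor given by `S` -/
lemma binary {n : ℕ} {f : (Fin k → Bool) → Bool} {C : Finset (Fin n → Bool)}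
    (hC : Closed f C) (S : Finset (Fin k)) (g : Bool → Bool → Bool)
    (hg : ∀ a b, f (fun i => if i ∈ S then a else b) = g a b) :
    ∀ x ∈ C, ∀ y ∈ C, (fun j => g (x j) (y j)) ∈ C := by
  intro x hx y hy
  have := hC (fun i => if i ∈ S then x else y) (fun i => by by_cases h : i ∈ S <;> simp [h, hx, hy])
  have e : (fun j => f (fun i => (if i ∈ S then x else y) j)) = fun j => g (x j) (y j) := by
    funext j
    rw [← hg]
    congr 1
    funext i
    by_cases h : i ∈ S <;> simp [h]
  rwa [e] at this

/-- the ternary minor given by `A`, `B` -/
lemma ternary {n : ℕ} {f : (Fin k → Bool) → Bool} {C : Finset (Fin n → Bool)}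
    (hC : Closed f C) (A B : Finset (Fin k)) (g : Bool → Bool → Bool → Bool)
    (hg : ∀ a b c, f (fun i => if i ∈ A then a else if i ∈ B then b else c) = g a b c) :
    ∀ x ∈ C, ∀ y ∈ C, ∀ z ∈ C, (fun j => g (x j) (y j) (z j)) ∈ C := by
  intro x hx y hy z hz
  have := hC (fun i => if i ∈ A then x else if i ∈ B then y else z)
    (fun i => by by_cases h : i ∈ A <;> by_cases h' : i ∈ B <;> simp [h, h', hx, hy, hz])
  have e : (fun j => f (fun i => (if i ∈ A then x else if i ∈ B then y else z) j))
      = fun j => g (x j) (y j) (z j) := by
    funext j
    rw [← hg]
    congr 1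
    funext i
    by_cases h : i ∈ A <;> by_cases h' : i ∈ B <;> simp [h, h']
  rwa [e] at this

/-- **Post's theorem for idempotent operations.** -/
theorem post {f : (Fin k → Bool) → Bool} (hid : ∀ b, f (fun _ => b) = b) :
    (∃ T : Finset (Fin k), Odd T.card ∧ ∀ x, f x = par T x) ∨
    (∀ (n : ℕ) (C : Finset (Fin n → Bool)), Closed f C → AndC C) ∨
    (∀ (n : ℕ) (C : Finset (Fin n → Bool)), Closed f C → OrC C) ∨
    (∀ (n : ℕ) (C : Finset (Fin n → Bool)), Closed f C → MajC C) := by
  -- binary minors
  have hbin : ∀ (S : Finset (Fin k)) (a b : Bool), f (fun i => if i ∈ S then a else b)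
      = if a = b then a else (if a then u f S else u f Sᶜ) := by
    intro S a b
    cases a <;> cases b
    · simpa using hid false
    · simp only [Bool.false_eq_true, if_false]
      unfold u
      congr 1
      funext i
      by_cases h : i ∈ S <;> simp [h]
    · simp only [Bool.true_eq_false, if_false, if_true]
      unfold u
      congr 1
    · simpa using hid true
  by_cases hself : ∀ S, u f Sᶜ = !(u f S)
  swap
  · push Not at hself
    obtain ⟨S, hS⟩ := hself
    rcases hu : u f S with _ | _
    · -- both false: and
      have h2 : u f Sᶜ = false := by
        rw [hu] at hS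
        revert hS
        cases u f Sᶜ <;> simp
      right; left
      intro n C hC
      exact binary hC S (fun a b => a && b) (by
        intro a b
        rw [hbin]
        cases a <;> cases b <;> simp [hu, h2])
    · have h2 : u f Sᶜ = true := by
        rw [hu] at hS
        revert hS
        cases u f Sᶜ <;> simp
      right; right; left
      intro n C hC
      exact binary hC S (fun a b => a || b) (by
        intro a b
        rw [hbin]
        cases a <;> cases b <;> simp [hu, h2])
  · by_cases hadd : ∀ A B : Finset (Fin k), Disjoint A B → u f (A ∪ B) = xor (u f A) (u f B)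
    · -- affine
      left
      set T : Finset (Fin k) := univ.filter (fun i => u f {i} = true) with hT
      have hind : ∀ S : Finset (Fin k), u f S = decide (Odd (T ∩ S).card) := by
        intro S
        induction S using Finset.induction_on with
        | empty => rw [u_empty hid]; simp
        | insert a S ha ih =>
          rw [Finset.insert_eq, hadd {a} S (Finset.disjoint_singleton_left.mpr ha), ih]
          by_cases haT : a ∈ T
          · have h1 : u f {a} = true := (Finset.mem_filter.mp haT).2
            have h2 : T ∩ ({a} ∪ S) = insert a (T ∩ S) := by
              ext x; simp only [Finset.mem_inter, Finset.mem_union, Finset.mem_singleton,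
                Finset.mem_insert]
              constructor
              · rintro ⟨hx, rfl | hx'⟩
                · exact Or.inl rfl
                · exact Or.inr ⟨hx, hx'⟩
              · rintro (rfl | ⟨hx, hx'⟩)
                · exact ⟨haT, Or.inl rfl⟩
                · exact ⟨hx, Or.inr hx'⟩
            have h3 : a ∉ T ∩ S := fun h => ha (Finset.mem_inter.mp h).2
            rw [h1, h2, Finset.card_insert_of_notMem h3]
            by_cases ho : Odd (T ∩ S).card
            · have : ¬ Odd ((T ∩ S).card + 1) := by
                rw [Nat.odd_add_one]; exact not_not.mpr ho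
              simp [ho, this]
            · have : Odd ((T ∩ S).card + 1) := by
                rw [Nat.odd_add_one]; exact ho
              simp [ho, this]
          · have h1 : u f {a} = false := by
              by_contra hc
              exact haT (Finset.mem_filter.mpr ⟨Finset.mem_univ _, by simpa using hc⟩)
            have h2 : T ∩ ({a} ∪ S) = T ∩ S := by
              ext x; simp only [Finset.mem_inter, Finset.mem_union, Finset.mem_singleton]
              constructor
              · rintro ⟨hx, rfl | hx'⟩
                · exact absurd hx haT
                · exact ⟨hx, hx'⟩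
              · rintro ⟨hx, hx'⟩
                exact ⟨hx, Or.inr hx'⟩
            rw [h1, h2]
            simp
      refine ⟨T, ?_, ?_⟩
      · have h1 := hind univ
        rw [u_univ hid, Finset.inter_univ] at h1
        exact of_decide_eq_true h1.symm
      · intro x
        rw [eval_u f x, hind]
        unfold par
        have e : T ∩ univ.filter (fun i => x i = true) = T.filter (fun i => x i = true) := by
          ext i
          simp
        rw [e]
    · -- majority
      push Not at hadd
      obtain ⟨A, B, hAB, hne⟩ := hadd
      right; right; right
      intro n C hC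
      set c : Bool := u f (A ∪ B)ᶜ with hc
      have hcu : c = !(u f (A ∪ B)) := hself _
      -- the values of the ternary minor
      set t : Bool → Bool → Bool → Bool := fun x y z =>
        f (fun i => if i ∈ A then x else if i ∈ B then y else z) with ht
      have hdj : ∀ i, i ∈ A → i ∉ B := fun i hi hi' => Finset.disjoint_left.mp hAB hi hi'
      have t000 : t false false false = false := by simpa [ht] using hid false
      have t111 : t true true true = true := by simpa [ht] using hid true
      have t100 : t true false false = u f A := by
        simp only [ht, u]; congr 1; funext i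
        by_cases h : i ∈ A <;> by_cases h' : i ∈ B <;> simp [h, h']
      have t010 : t false true false = u f B := by
        simp only [ht, u]; congr 1; funext i
        by_cases h : i ∈ A
        · simp [h, hdj i h]
        · by_cases h' : i ∈ B <;> simp [h, h']
      have t001 : t false false true = c := by
        simp only [ht, hc, u]; congr 1; funext i
        by_cases h : i ∈ A <;> by_cases h' : i ∈ B <;> simp [h, h']
      have t011 : t false true true = !(u f A) := by
        rw [← hself]; simp only [ht, u]; congr 1; funext i
        by_cases h : i ∈ A <;> by_cases h' : i ∈ B <;> simp [h, h']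
      have t101 : t true false true = !(u f B) := by
        rw [← hself]; simp only [ht, u]; congr 1; funext i
        by_cases h : i ∈ A
        · simp [h, hdj i h]
        · by_cases h' : i ∈ B <;> simp [h, h']
      have t110 : t true true false = !c := by
        rw [hcu, Bool.not_not]; simp only [ht, u]; congr 1; funext i
        by_cases h : i ∈ A <;> by_cases h' : i ∈ B <;> simp [h, h']
      have htC := ternary hC A B t (fun a b c => rfl)
      rw [← Bool.not_not (u f (A ∪ B)), ← hcu] at hne
      rcases hA : u f A with _ | _ <;> rcases hB : u f B with _ | _ <;> rcases hcc : c with _ | _ <;>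
        rw [hA, hB, hcc] at hne <;> simp at hne
      · -- 0 0 0
        intro x hx y hy z hz
        have h1 := htC x hx y hy z hz
        have e : (fun j => t (x j) (y j) (z j)) = fun j => maj (x j) (y j) (z j) := by
          funext j
          cases x j <;> cases y j <;> cases z j <;>
            simp [t000, t111, t100, t010, t001, t011, t101, t110, hA, hB, hcc, maj]
        rwa [e] at h1
      · -- 0 1 1
        intro x hx y hy z hz
        have h1 := htC _ (htC x hx y hy z hz) y hy z hz
        have e : (fun j => t (t (x j) (y j) (z j)) (y j) (z j)) = fun j => maj (x j) (y j) (z j) := by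
          funext j
          cases x j <;> cases y j <;> cases z j <;>
            simp [t000, t111, t100, t010, t001, t011, t101, t110, hA, hB, hcc, maj]
        rwa [e] at h1
      · -- 1 0 1
        intro x hx y hy z hz
        have h1 := htC x hx _ (htC x hx y hy z hz) z hz
        have e : (fun j => t (x j) (t (x j) (y j) (z j)) (z j)) = fun j => maj (x j) (y j) (z j) := by
          funext j
          cases x j <;> cases y j <;> cases z j <;>
            simp [t000, t111, t100, t010, t001, t011, t101, t110, hA, hB, hcc, maj]
        rwa [e] at h1
      · -- 1 1 0
        intro x hx y hy z hz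
        have h1 := htC x hx y hy _ (htC x hx y hy z hz)
        have e : (fun j => t (x j) (y j) (t (x j) (y j) (z j))) = fun j => maj (x j) (y j) (z j) := by
          funext j
          cases x j <;> cases y j <;> cases z j <;>
            simp [t000, t111, t100, t010, t001, t011, t101, t110, hA, hB, hcc, maj]
        rwa [e] at h1

lemma par_empty (x : Fin k → Bool) : par ∅ x = false := by
  unfold par
  simp

lemma par_insert {a : Fin k} {T : Finset (Fin k)} (ha : a ∉ T) (x : Fin k → Bool) :
    par (insert a T) x = xor (x a) (par T x) := by
  unfold par
  rw [Finset.filter_insert]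
  by_cases h : x a = true
  · rw [if_pos h, Finset.card_insert_of_notMem (fun hc => ha (Finset.mem_filter.mp hc).1), h]
    by_cases ho : Odd (T.filter (fun i => x i = true)).card
    · have : ¬ Odd ((T.filter (fun i => x i = true)).card + 1) := by
        rw [Nat.odd_add_one]; exact not_not.mpr ho
      rw [decide_eq_true ho, decide_eq_false this]
      rfl
    · have : Odd ((T.filter (fun i => x i = true)).card + 1) := by
        rw [Nat.odd_add_one]; exact ho
      rw [decide_eq_false ho, decide_eq_true this]
      rfl
  · rw [if_neg h]
    have h' : x a = false := by simpa using h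
    rw [h', Bool.false_xor]

/-- parity of the words of a family of elements of `C` -/
lemma par_mem {n : ℕ} {C : Finset (Fin n → Bool)} (hX : XorC C) :
    ∀ (m : ℕ) (T : Finset (Fin k)), T.card = m → Odd m → ∀ x : Fin k → Fin n → Bool,
      (∀ i ∈ T, x i ∈ C) → (fun j => par T (fun i => x i j)) ∈ C := by
  intro m
  induction m using Nat.strong_induction_on with
  | _ m ih =>
    intro T hT hodd x hx
    rcases Nat.lt_or_ge m 3 with h3 | h3
    · have h1 : m = 1 := by
        obtain ⟨r, hr⟩ := hodd; omega
      subst h1
      obtain ⟨a, rfl⟩ := Finset.card_eq_one.mp hT
      have e : (fun j => par {a} (fun i => x i j)) = x a := by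
        funext j
        have := par_insert (Finset.notMem_empty a) (fun i => x i j)
        rw [par_empty] at this
        simpa using this
      rw [e]
      exact hx a (by simp)
    · obtain ⟨a, ha⟩ : T.Nonempty := Finset.card_pos.mp (by omega)
      have hca : (T.erase a).card = m - 1 := by rw [Finset.card_erase_of_mem ha, hT]
      obtain ⟨b, hb⟩ : (T.erase a).Nonempty := Finset.card_pos.mp (by omega)
      set T' := (T.erase a).erase b with hT'
      have hcb : T'.card = m - 2 := by rw [hT', Finset.card_erase_of_mem hb, hca]; omega
      have h2 := ih (m - 2) (by omega) T' hcb (by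
        obtain ⟨r, hr⟩ := hodd; exact ⟨r - 1, by omega⟩) x
        (fun i hi => hx i (Finset.mem_of_mem_erase (Finset.mem_of_mem_erase hi)))
      have h4 := hX _ (hx a ha) _ (hx b (Finset.mem_of_mem_erase hb)) _ h2
      have e : (fun j => xor (x a j) (xor (x b j) (par T' (fun i => x i j))))
          = fun j => par T (fun i => x i j) := by
        funext j
        have hbT' : b ∉ T' := by simp [hT']
        have haT' : a ∉ insert b T' := by
          rw [hT', Finset.insert_erase hb]; simp
        have eT : T = insert a (insert b T') := by
          rw [hT', Finset.insert_erase hb, Finset.insert_erase ha]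
        conv_rhs => rw [eT]
        rw [par_insert haT', par_insert hbT']
      rwa [e] at h4

/-- For a parity of at least three variables, closed means closed under the sum of three words. -/
theorem closed_par_iff {n : ℕ} {T : Finset (Fin k)} (hodd : Odd T.card) (h3 : 3 ≤ T.card)
    (C : Finset (Fin n → Bool)) : Closed (par T) C ↔ XorC C := by
  constructor
  · intro hC x hx y hy z hz
    obtain ⟨a, ha⟩ : T.Nonempty := Finset.card_pos.mp (by omega)
    have hca : (T.erase a).card = T.card - 1 := Finset.card_erase_of_mem ha
    obtain ⟨b, hb⟩ : (T.erase a).Nonempty := Finset.card_pos.mp (by omega)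
    set T' := (T.erase a).erase b with hT'
    have hbT' : b ∉ T' := by simp [hT']
    have haT' : a ∉ insert b T' := by
      rw [hT', Finset.insert_erase hb]; simp
    have haT'' : a ∉ T' := fun h => haT' (Finset.mem_insert_of_mem h)
    have hab : b ≠ a := (Finset.mem_erase.mp hb).1
    have eT : T = insert a (insert b T') := by
      rw [hT', Finset.insert_erase hb, Finset.insert_erase ha]
    have hcb : T'.card = T.card - 2 := by rw [hT', Finset.card_erase_of_mem hb, hca]; omega
    have h5 := hC (fun i => if i = a then x else if i = b then y else z) (fun i => by
      by_cases h : i = a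
      · rw [if_pos h]; exact hx
      · rw [if_neg h]
        by_cases h' : i = b
        · rw [if_pos h']; exact hy
        · rw [if_neg h']; exact hz)
    have e : (fun j => par T (fun i => (if i = a then x else if i = b then y else z) j))
        = fun j => xor (x j) (xor (y j) (z j)) := by
      funext j
      rw [eT, par_insert haT', par_insert hbT']
      have h6 : par T' (fun i => (if i = a then x else if i = b then y else z) j) = z j := by
        unfold par
        have h7 : T'.filter (fun i => (if i = a then x else if i = b then y else z) j = true)
            = if z j = true then T' else ∅ := by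
          have h8 : ∀ i ∈ T', (if i = a then x else if i = b then y else z) j = z j := by
            intro i hi
            have h9 : i ≠ a := fun h => haT'' (h ▸ hi)
            have h10 : i ≠ b := fun h => hbT' (h ▸ hi)
            simp [h9, h10]
          rw [Finset.filter_congr (q := fun _ => z j = true) (fun i hi => by rw [h8 i hi])]
          by_cases hz : z j = true <;> simp [hz]
        rw [h7]
        have ho : Odd T'.card := by
          rw [hcb]; obtain ⟨r, hr⟩ := hodd; exact ⟨r - 1, by omega⟩
        by_cases hz : z j = true
        · rw [if_pos hz, hz]; exact decide_eq_true ho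
        · rw [if_neg hz]
          have : z j = false := by simpa using hz
          rw [this]; simp
      rw [h6]
      simp [hab]
    rwa [e] at h5
  · intro hX x hx
    exact par_mem hX T.card T rfl hodd x (fun i _ => hx i)

/-- sets closed under the sum of three words are cosets of linear codes -/
theorem xorC_iff {n : ℕ} (C : Finset (Fin n → Bool)) : XorC C ↔
    ∀ v ∈ C, ∃ L : Finset (Fin n → Bool), (fun _ => false) ∈ L ∧
      (∀ x ∈ L, ∀ y ∈ L, (fun j => xor (x j) (y j)) ∈ L) ∧
      C = L.image (fun x j => xor (v j) (x j)) := by
  constructor
  · intro hX v hv
    refine ⟨C.image (fun x j => xor (v j) (x j)), ?_, ?_, ?_⟩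
    · exact Finset.mem_image.mpr ⟨v, hv, by funext j; simp⟩
    · intro x hx y hy
      obtain ⟨x', hx', rfl⟩ := Finset.mem_image.mp hx
      obtain ⟨y', hy', rfl⟩ := Finset.mem_image.mp hy
      refine Finset.mem_image.mpr ⟨_, hX v hv x' hx' y' hy', ?_⟩
      funext j
      show xor (v j) (xor (v j) (xor (x' j) (y' j))) = xor (xor (v j) (x' j)) (xor (v j) (y' j))
      cases v j <;> cases x' j <;> cases y' j <;> rfl
    · rw [Finset.image_image]
      have : (fun (x : Fin n → Bool) (j : Fin n) => xor (v j) (x j)) ∘ (fun x j => xor (v j) (x j))
          = id := by
        funext x j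
        simp only [Function.comp, id]
        cases v j <;> cases x j <;> rfl
      rw [this, Finset.image_id]
  · intro h x hx y hy z hz
    obtain ⟨L, -, hL, rfl⟩ := h x hx
    obtain ⟨x', hx', hxe⟩ := Finset.mem_image.mp hx
    obtain ⟨y', hy', rfl⟩ := Finset.mem_image.mp hy
    obtain ⟨z', hz', rfl⟩ := Finset.mem_image.mp hz
    refine Finset.mem_image.mpr ⟨_, hL y' hy' z' hz', ?_⟩
    funext j
    show xor (x j) (xor (y' j) (z' j)) = xor (x j) (xor (xor (x j) (y' j)) (xor (x j) (z' j)))
    cases x j <;> cases y' j <;> cases z' j <;> rfl

end Pool.Agent.R604.PC
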